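import Pool.Agent.Q98.RegDF.Stage

/-! The global ring: direct limit of the stages along words in three letters, two even and one odd. -/

set_option autoImplicit false

namespace Pool.Agent.Q98.RegDF

open HahnSeries

variable {F : Type} [Field F]

/-- words -/
abbrev Wd (n : ℕ) : Type := Fin n → Fin 3

/-- the sign of a letter -/
def ls (a : Fin 3) : ℤ := if a = 2 then -1 else 1

/-- the sign of a word -/
def sg {n : ℕ} (w : Wd n) : ℤ := ∏ i, ls (w i)

/-- odd words -/
def od (n : ℕ) (w : Wd n) : Bool := decide (sg w = -1)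

theorem ls_or (a : Fin 3) : ls a = 1 ∨ ls a = -1 := by
  unfold ls
  split_ifs
  · right; rfl
  · left; rfl

theorem sg_or {n : ℕ} (w : Wd n) : sg w = 1 ∨ sg w = -1 := by
  have : IsUnit (sg w) := by
    unfold sg
    rw [IsUnit.prod_univ_iff]
    intro i
    rcases ls_or (w i) with h | h <;> rw [h]
    · exact isUnit_one
    · exact isUnit_one.neg
  exact Int.isUnit_iff.mp this

theorem sg_snoc {n : ℕ} (w : Wd n) (a : Fin 3) : sg (Fin.snoc w a : Wd (n + 1)) = sg w * ls a := by
  unfold sg
  rw [Fin.prod_univ_castSucc]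
  simp

theorem od_snoc_two {n : ℕ} (w : Wd n) : od (n + 1) (Fin.snoc w 2 : Wd (n + 1)) = !(od n w) := by
  unfold od
  rw [sg_snoc]
  have : ls 2 = -1 := by decide
  rw [this]
  rcases sg_or w with h | h <;> rw [h] <;> decide

theorem od_snoc_ne {n : ℕ} (w : Wd n) {a : Fin 3} (ha : a ≠ 2) :
    od (n + 1) (Fin.snoc w a : Wd (n + 1)) = od n w := by
  unfold od
  rw [sg_snoc]
  have : ls a = 1 := if_neg ha
  rw [this, mul_one]

/-- there is exactly one more even word than odd words -/
theorem card_even (n : ℕ) : (Fintype.card {w : Wd n // od n w = false} : ℤ) =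
    Fintype.card {w : Wd n // od n w = true} + 1 := by
  have h1 : ∑ w : Wd n, sg w = 1 := by
    have h2 := Finset.prod_univ_sum (fun _ : Fin n => (Finset.univ : Finset (Fin 3)))
      (fun _ a => ls a)
    rw [Fintype.piFinset_univ] at h2
    have h3 : ∑ a : Fin 3, ls a = 1 := by decide
    simp only [h3, Finset.prod_const_one] at h2
    exact h2.symm
  have h2 : ∀ w : Wd n, sg w = (if od n w = false then 1 else 0) - (if od n w = true then 1 else 0) := by
    intro w
    unfold od
    rcases sg_or w with h | h <;> rw [h] <;> decide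
  simp only [h2, Finset.sum_sub_distrib] at h1
  rw [Fintype.card_subtype, Fintype.card_subtype]
  simp only [Finset.sum_boole] at h1
  linarith

/-- the slice of a vector at a last letter -/
noncomputable def slice {n : ℕ} (a : Fin 3) : (Wd (n + 1) → KK F) →ₗ[F] (Wd n → KK F) where
  toFun h w := h (Fin.snoc w a)
  map_add' _ _ := rfl
  map_smul' _ _ := rfl

/-- the inclusion at a last letter -/
noncomputable def incl {n : ℕ} (a : Fin 3) : (Wd n → KK F) →ₗ[F] (Wd (n + 1) → KK F) where
  toFun h w := if w (Fin.last n) = a then h (Fin.init w) else 0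
  map_add' h h' := by
    funext w
    simp only [Pi.add_apply]
    split_ifs <;> simp
  map_smul' c h := by
    funext w
    simp only [Pi.smul_apply, RingHom.id_apply]
    split_ifs <;> simp

/-- one more letter -/
noncomputable def up {n : ℕ} (x : Module.End F (Wd n → KK F)) :
    Module.End F (Wd (n + 1) → KK F) where
  toFun h w := x (slice (w (Fin.last n)) h) (Fin.init w)
  map_add' h h' := by
    funext w
    rw [map_add, map_add]
    rfl
  map_smul' c h := by
    funext w
    rw [map_smul, map_smul]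
    rfl

theorem slice_ext {n : ℕ} {h h' : Wd (n + 1) → KK F} (H : ∀ a, slice a h = slice a h') : h = h' := by
  funext w
  have := congrFun (H (w (Fin.last n))) (Fin.init w)
  change h (Fin.snoc (Fin.init w) (w (Fin.last n))) = h' (Fin.snoc (Fin.init w) (w (Fin.last n)))
    at this
  rwa [Fin.snoc_init_self] at this

theorem slice_up {n : ℕ} (x : Module.End F (Wd n → KK F)) (a : Fin 3) (h : Wd (n + 1) → KK F) :
    slice a (up x h) = x (slice a h) := by
  funext w
  change x (slice ((Fin.snoc w a : Wd (n + 1)) (Fin.last n)) h) (Fin.init (Fin.snoc w a : Wd (n + 1))) = _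
  rw [Fin.snoc_last, Fin.init_snoc]

theorem slice_PI_two {n : ℕ} (h : Wd (n + 1) → KK F) :
    slice 2 (PI (od (n + 1)) h) = (1 - PI (od n) : Module.End F (Wd n → KK F)) (slice 2 h) := by
  funext w
  change (if od (n + 1) (Fin.snoc w 2) then pm F else pp F) (h (Fin.snoc w 2)) =
    h (Fin.snoc w 2) - (if od n w then pm F else pp F) (h (Fin.snoc w 2))
  rw [od_snoc_two]
  have h1 := LinearMap.congr_fun (pp_add_pm (F := F)) (h (Fin.snoc w 2))
  change pp F (h (Fin.snoc w 2)) + pm F (h (Fin.snoc w 2)) = h (Fin.snoc w 2) at h1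
  cases od n w
  · simp only [Bool.not_false, if_true, Bool.false_eq_true, if_false]
    rw [eq_sub_iff_add_eq, add_comm]
    exact h1
  · simp only [Bool.not_true, if_true, Bool.false_eq_true, if_false]
    rw [eq_sub_iff_add_eq]
    exact h1

theorem slice_PI_ne {n : ℕ} (h : Wd (n + 1) → KK F) {a : Fin 3} (ha : a ≠ 2) :
    slice a (PI (od (n + 1)) h) = PI (od n) (slice a h) := by
  funext w
  change (if od (n + 1) (Fin.snoc w a) then pm F else pp F) (h (Fin.snoc w a)) =
    (if od n w then pm F else pp F) (h (Fin.snoc w a))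
  rw [od_snoc_ne w ha]

theorem up_mul {n : ℕ} (x y : Module.End F (Wd n → KK F)) : up (x * y) = up x * up y := by
  apply LinearMap.ext
  intro h
  apply slice_ext
  intro a
  change slice a (up (x * y) h) = slice a (up x (up y h))
  rw [slice_up, slice_up, slice_up]
  rfl

theorem up_sub {n : ℕ} (x y : Module.End F (Wd n → KK F)) : up (x - y) = up x - up y := by
  apply LinearMap.ext
  intro h
  apply slice_ext
  intro a
  change slice a (up (x - y) h) = slice a (up x h) - slice a (up y h)
  rw [slice_up, slice_up, slice_up]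
  rfl

theorem up_LI {n : ℕ} (k : KK F) : up (LI (I := Wd n) k) = LI k := by
  apply LinearMap.ext
  intro h
  apply slice_ext
  intro a
  rw [slice_up]
  rfl

theorem FR_up {n : ℕ} {x : Module.End F (Wd n → KK F)} (hx : FR x) : FR (up x) := by
  have h1 : up x = ∑ a : Fin 3, (incl a).comp (x.comp (slice a)) := by
    apply LinearMap.ext
    intro h
    rw [LinearMap.sum_apply]
    funext w
    rw [Finset.sum_apply, Finset.sum_eq_single (w (Fin.last n))]
    · change _ = if w (Fin.last n) = w (Fin.last n) then _ else _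
      rw [if_pos rfl]
      rfl
    · intro a _ ha
      change (if w (Fin.last n) = a then _ else _) = _
      rw [if_neg ha.symm]
    · intro hj
      exact absurd (Finset.mem_univ _) hj
  rw [h1]
  apply FR.sum
  intro a _
  exact (hx.comp_right _).comp_left _

theorem up_mem {n : ℕ} {x : Module.End F (Wd n → KK F)} (hx : x ∈ Rs (od n)) :
    up x ∈ Rs (od (n + 1)) := by
  obtain ⟨hc, k, hk⟩ := hx
  refine ⟨?_, k, ?_⟩
  · apply LinearMap.ext
    intro h
    apply slice_ext
    intro a
    change slice a (PI (F := F) (od (n + 1)) (up x h)) = slice a (up x (PI (F := F) (od (n + 1)) h))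
    by_cases ha : a = 2
    · subst ha
      rw [slice_PI_two, slice_up, slice_up, slice_PI_two]
      have := LinearMap.congr_fun hc (slice 2 h)
      change PI (F := F) (od n) (x (slice 2 h)) = x (PI (F := F) (od n) (slice 2 h)) at this
      change x (slice 2 h) - PI (F := F) (od n) (x (slice 2 h)) =
        x (slice 2 h - PI (F := F) (od n) (slice 2 h))
      rw [this, map_sub]
    · rw [slice_PI_ne _ ha, slice_up, slice_up, slice_PI_ne _ ha]
      exact LinearMap.congr_fun hc (slice a h)
  · rw [← up_LI, ← up_sub]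
    exact FR_up hk

theorem exists_slice {n : ℕ} (v : Wd n → KK F) : ∃ h : Wd (n + 1) → KK F, ∀ a, slice a h = v := by
  refine ⟨fun w => v (Fin.init w), fun a => ?_⟩
  funext w
  change v (Fin.init (Fin.snoc w a : Wd (n + 1))) = v w
  rw [Fin.init_snoc]

theorem up_PI_ne {n : ℕ} {z : Module.End F (Wd n → KK F)} (hz : z ≠ 0) :
    PI (F := F) (od (n + 1)) * up z ≠ 0 := by
  intro h0
  apply hz
  apply LinearMap.ext
  intro v
  obtain ⟨h, hh⟩ := exists_slice v
  have h1 : PI (F := F) (od (n + 1)) (up z h) = 0 := LinearMap.congr_fun h0 h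
  have h2 := congrArg (slice 2) h1
  rw [slice_PI_two, slice_up, hh, map_zero] at h2
  have h3 := congrArg (slice 0) h1
  rw [slice_PI_ne _ (by decide), slice_up, hh, map_zero] at h3
  change z v - PI (F := F) (od n) (z v) = 0 at h2
  rw [h3, sub_zero] at h2
  exact h2

theorem up_QI_ne {n : ℕ} {z : Module.End F (Wd n → KK F)} (hz : z ≠ 0) :
    (1 - PI (F := F) (od (n + 1))) * up z ≠ 0 := by
  intro h0
  apply hz
  apply LinearMap.ext
  intro v
  obtain ⟨h, hh⟩ := exists_slice v
  have h1 : up z h - PI (F := F) (od (n + 1)) (up z h) = 0 := LinearMap.congr_fun h0 h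
  have h2 := congrArg (slice 2) h1
  rw [map_sub, slice_PI_two, slice_up, hh, map_zero] at h2
  have h3 := congrArg (slice 0) h1
  rw [map_sub, slice_PI_ne _ (by decide), slice_up, hh, map_zero] at h3
  change z v - (z v - PI (F := F) (od n) (z v)) = 0 at h2
  rw [sub_sub_cancel] at h2
  rw [h2, sub_zero] at h3
  exact h3

/-! the global space -/

variable (F) in
/-- the global space -/
abbrev GG : Type := (ℕ → Fin 3) → KK F

/-- change the first `n` letters -/
def upd (n : ℕ) (w : Wd n) (ω : ℕ → Fin 3) : ℕ → Fin 3 := fun i => if h : i < n then w ⟨i, h⟩ else ω i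

/-- the first `n` letters -/
def res (n : ℕ) (ω : ℕ → Fin 3) : Wd n := fun i => ω i

theorem upd_upd (n : ℕ) (w w' : Wd n) (ω : ℕ → Fin 3) : upd n w (upd n w' ω) = upd n w ω := by
  funext i
  unfold upd
  split_ifs <;> rfl

theorem res_upd (n : ℕ) (w : Wd n) (ω : ℕ → Fin 3) : res n (upd n w ω) = w := by
  funext i
  unfold res upd
  rw [dif_pos i.2]

theorem upd_res (n : ℕ) (ω : ℕ → Fin 3) : upd n (res n ω) ω = ω := by
  funext i
  unfold res upd
  split_ifs <;> rfl

theorem upd_snoc (n : ℕ) (w : Wd n) (ω : ℕ → Fin 3) :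
    upd (n + 1) (Fin.snoc w (ω n)) ω = upd n w ω := by
  funext i
  unfold upd
  by_cases h : i < n
  · rw [dif_pos (by omega), dif_pos h]
    have : (⟨i, by omega⟩ : Fin (n + 1)) = Fin.castSucc ⟨i, h⟩ := rfl
    rw [this, Fin.snoc_castSucc]
  · rw [dif_neg h]
    by_cases h' : i < n + 1
    · rw [dif_pos h']
      have hi : i = n := by omega
      subst hi
      have : (⟨i, h'⟩ : Fin (i + 1)) = Fin.last i := rfl
      rw [this, Fin.snoc_last]
    · rw [dif_neg h']

/-- the extension to the global space -/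
noncomputable def ext (n : ℕ) : Module.End F (Wd n → KK F) →+* Module.End F (GG F) where
  toFun x :=
    { toFun := fun g ω => x (fun w => g (upd n w ω)) (res n ω)
      map_add' := by
        intro g g'
        funext ω
        have : (fun w => (g + g') (upd n w ω)) =
          (fun w => g (upd n w ω)) + (fun w => g' (upd n w ω)) := rfl
        rw [this, map_add]
        rfl
      map_smul' := by
        intro c g
        funext ω
        have : (fun w => (c • g) (upd n w ω)) = c • (fun w => g (upd n w ω)) := rfl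
        rw [this, map_smul]
        rfl }
  map_one' := by
    apply LinearMap.ext
    intro g
    funext ω
    change g (upd n (res n ω) ω) = g ω
    rw [upd_res]
  map_mul' x y := by
    apply LinearMap.ext
    intro g
    funext ω
    change x (y (fun w => g (upd n w ω))) (res n ω) =
      x (fun w => y (fun w' => g (upd n w' (upd n w ω))) (res n (upd n w ω))) (res n ω)
    simp only [upd_upd, res_upd]
  map_zero' := rfl
  map_add' x y := rfl

theorem ext_inj (n : ℕ) {x y : Module.End F (Wd n → KK F)} (h : ext n x = ext n y) : x = y := by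
  apply LinearMap.ext
  intro v
  funext w
  have h1 := congrFun (LinearMap.congr_fun h (fun ω => v (res n ω))) (upd n w (fun _ => 0))
  change x (fun w' => v (res n (upd n w' (upd n w (fun _ => 0))))) (res n (upd n w (fun _ => 0))) =
    y (fun w' => v (res n (upd n w' (upd n w (fun _ => 0))))) (res n (upd n w (fun _ => 0))) at h1
  simp only [res_upd] at h1
  exact h1

theorem ext_up (n : ℕ) (x : Module.End F (Wd n → KK F)) : ext (n + 1) (up x) = ext n x := by
  apply LinearMap.ext
  intro g
  funext ω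
  change x (fun w' => g (upd (n + 1) (Fin.snoc w' (ω n)) ω)) (res n ω) =
    x (fun w => g (upd n w ω)) (res n ω)
  simp only [upd_snoc]

theorem ext_LI (n : ℕ) (k : KK F) : ext n (LI k) = ext 0 (LI k) := by
  apply LinearMap.ext
  intro g
  funext ω
  change lam k (g (upd n (res n ω) ω)) = lam k (g (upd 0 (res 0 ω) ω))
  rw [upd_res, upd_res]

theorem lift {n m : ℕ} (h : n ≤ m) {x : Module.End F (Wd n → KK F)} (hx : x ∈ Rs (od n)) :
    ∃ x' ∈ Rs (F := F) (od m), ext m x' = ext n x := by
  induction m, h using Nat.le_induction with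
  | base => exact ⟨x, hx, rfl⟩
  | succ m _ ih =>
    obtain ⟨x', hx', he⟩ := ih
    exact ⟨up x', up_mem hx', by rw [ext_up, he]⟩

variable (F) in
/-- the counterexample -/
noncomputable def RR : Subring (Module.End F (GG F)) where
  carrier := {r | ∃ n, ∃ x ∈ Rs (F := F) (od n), ext n x = r}
  mul_mem' := by
    rintro r s ⟨n, x, hx, rfl⟩ ⟨m, y, hy, rfl⟩
    obtain ⟨x', hx', hex⟩ := lift (le_max_left n m) hx
    obtain ⟨y', hy', hey⟩ := lift (le_max_right n m) hy
    exact ⟨_, x' * y', (Rs _).mul_mem hx' hy', by rw [map_mul, hex, hey]⟩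
  one_mem' := ⟨0, 1, (Rs _).one_mem, map_one _⟩
  add_mem' := by
    rintro r s ⟨n, x, hx, rfl⟩ ⟨m, y, hy, rfl⟩
    obtain ⟨x', hx', hex⟩ := lift (le_max_left n m) hx
    obtain ⟨y', hy', hey⟩ := lift (le_max_right n m) hy
    exact ⟨_, x' + y', (Rs _).add_mem hx' hy', by rw [map_add, hex, hey]⟩
  zero_mem' := ⟨0, 0, (Rs _).zero_mem, map_zero _⟩
  neg_mem' := by
    rintro r ⟨n, x, hx, rfl⟩
    exact ⟨n, -x, (Rs _).neg_mem hx, map_neg _ _⟩

/-- a stage inside the global ring -/
noncomputable def stg (n : ℕ) : Rs (F := F) (od n) →+* RR F where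
  toFun x := ⟨ext n x, n, x, x.2, rfl⟩
  map_one' := Subtype.ext (map_one _)
  map_mul' x y := Subtype.ext (map_mul _ _ _)
  map_zero' := Subtype.ext (map_zero _)
  map_add' x y := Subtype.ext (map_add _ _ _)

theorem exists_stg (r : RR F) : ∃ n, ∀ m, n ≤ m → ∃ x : Rs (F := F) (od m), stg m x = r := by
  obtain ⟨n, x, hx, he⟩ := r.2
  refine ⟨n, fun m hm => ?_⟩
  obtain ⟨x', hx', he'⟩ := lift hm hx
  exact ⟨⟨x', hx'⟩, Subtype.ext (by change ext m x' = r; rw [he', he])⟩

theorem stg_inj (n : ℕ) : Function.Injective (stg (F := F) n) := by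
  intro x y h
  apply Subtype.ext
  exact ext_inj n (congrArg Subtype.val h)

theorem RR_regular (a : RR F) : ∃ x : RR F, a * x * a = a := by
  obtain ⟨n, hn⟩ := exists_stg a
  obtain ⟨x, hx⟩ := hn n le_rfl
  obtain ⟨y, hy, hxy⟩ := Rs_regular x.2
  refine ⟨stg n ⟨y, hy⟩, ?_⟩
  rw [← hx, ← map_mul, ← map_mul]
  congr 1
  exact Subtype.ext hxy

theorem RR_df (x y : RR F) (h : x * y = 1) : y * x = 1 := by
  obtain ⟨n, hn⟩ := exists_stg x
  obtain ⟨m, hm⟩ := exists_stg y
  obtain ⟨x', hx'⟩ := hn (max n m) (le_max_left _ _)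
  obtain ⟨y', hy'⟩ := hm (max n m) (le_max_right _ _)
  have h1 : x' * y' = 1 := by
    apply stg_inj
    rw [map_mul, hx', hy', h, map_one]
  have h2 : (y' : Module.End F (Wd (max n m) → KK F)) * x' = 1 :=
    Rs_df x'.2 (congrArg Subtype.val h1)
  have h3 : y' * x' = 1 := Subtype.ext h2
  rw [← hx', ← hy', ← map_mul, h3, map_one]

/-- an ideal that is not zero contains all commutators -/
theorem RR_comm {S : Type} [Ring S] (f : RR F →+* S) (z : RR F) (hz : z ≠ 0) (hfz : f z = 0)
    (x y : RR F) : f x * f y = f y * f x := by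
  obtain ⟨n1, h1⟩ := exists_stg x
  obtain ⟨n2, h2⟩ := exists_stg y
  obtain ⟨n3, h3⟩ := exists_stg z
  obtain ⟨N, hN1, hN2, hN3⟩ : ∃ N, n1 ≤ N ∧ n2 ≤ N ∧ n3 ≤ N :=
    ⟨n1 + n2 + n3, by omega, by omega, by omega⟩
  obtain ⟨x', hx'⟩ := h1 N hN1
  obtain ⟨y', hy'⟩ := h2 N hN2
  obtain ⟨z', hz'⟩ := h3 N hN3
  have hz0 : (z' : Module.End F (Wd N → KK F)) ≠ 0 := by
    intro h0
    apply hz
    have : z' = 0 := Subtype.ext h0
    rw [← hz', this, map_zero]
  have hupstg : ∀ (w : Rs (F := F) (od N)), stg (N + 1) ⟨up w, up_mem w.2⟩ = stg N w := by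
    intro w
    exact Subtype.ext (ext_up N (w : Module.End F (Wd N → KK F)))
  have hFR : FR ((x' * y' - y' * x' : Rs (F := F) (od N)) : Module.End F (Wd N → KK F)) :=
    FR_comm x'.2 y'.2
  have key := simple (f.comp (stg (N + 1))) ⟨up z', up_mem z'.2⟩ (up_PI_ne hz0) (up_QI_ne hz0)
    (by rw [RingHom.comp_apply, hupstg, hz', hfz])
    ⟨up (x' * y' - y' * x' : Rs (F := F) (od N)), up_mem (x' * y' - y' * x').2⟩ (FR_up hFR)
  rw [RingHom.comp_apply, hupstg, map_sub, map_mul, map_mul, hx', hy', map_sub, map_mul, map_mul,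
    sub_eq_zero] at key
  exact key

/-- every image of the ring is directly finite -/
theorem RR_image_df {S : Type} [Ring S] (f : RR F →+* S) (hf : Function.Surjective f) (x y : S)
    (h : x * y = 1) : y * x = 1 := by
  by_cases hinj : Function.Injective f
  · obtain ⟨x', rfl⟩ := hf x
    obtain ⟨y', rfl⟩ := hf y
    have h1 : x' * y' = 1 := hinj (by rw [map_mul, h, map_one])
    rw [← map_mul, RR_df _ _ h1, map_one]
  · rw [injective_iff_map_eq_zero] at hinj
    push Not at hinj
    obtain ⟨z, hfz, hz⟩ := hinj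
    obtain ⟨x', rfl⟩ := hf x
    obtain ⟨y', rfl⟩ := hf y
    rw [← RR_comm f z hz hfz]
    exact h

variable (F) in
/-- the element that is not unit-regular -/
noncomputable def aa : RR F := stg 0 ⟨LI tt, LI_mem _⟩

theorem aa_eq (n : ℕ) : aa F = stg n ⟨LI tt, LI_mem _⟩ := Subtype.ext (ext_LI n _).symm

theorem aa_not (u : (RR F)ˣ) : aa F * u * aa F ≠ aa F := by
  intro h
  obtain ⟨n, hn⟩ := exists_stg (u : RR F)
  obtain ⟨m, hm⟩ := exists_stg ((u⁻¹ : (RR F)ˣ) : RR F)
  obtain ⟨x, hx⟩ := hn (max n m) (le_max_left _ _)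
  obtain ⟨y, hy⟩ := hm (max n m) (le_max_right _ _)
  have h1 : y * x = 1 := by
    apply stg_inj
    rw [map_mul, hx, hy, map_one]
    exact u.inv_mul
  have h2 : (⟨LI tt, LI_mem _⟩ : Rs (F := F) (od (max n m))) * x * ⟨LI tt, LI_mem _⟩ =
      ⟨LI tt, LI_mem _⟩ := by
    apply stg_inj
    rw [map_mul, map_mul, hx, ← aa_eq]
    exact h
  have h3 := card_le x.2 (congrArg Subtype.val h1) (congrArg Subtype.val h2)
  have h4 := card_even (max n m)
  omega

end Pool.Agent.Q98.RegDF
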