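import Pool.Agent.Q98.RegDF.Lin

/-! Laurent series: the compressed multiplication operators `lam k = p k p + (1-p) k (1-p)`, where `p` is the
projection onto the power series. -/

set_option autoImplicit false

namespace Pool.Agent.Q98.RegDF

open HahnSeries

variable (F : Type) [Field F]

/-- the Laurent series field -/
abbrev KK : Type := LaurentSeries F

/-- projection onto the coefficients of negative index -/
noncomputable def pm : Module.End F (KK F) := HahnSeries.truncLTLinearMap F 0

/-- projection onto the power series -/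
noncomputable def pp : Module.End F (KK F) := 1 - pm F

variable {F}

/-- multiplication operator -/
noncomputable def mk (k : KK F) : Module.End F (KK F) where
  toFun v := k * v
  map_add' v w := mul_add k v w
  map_smul' c v := by
    rw [← single_zero_mul_eq_smul, ← single_zero_mul_eq_smul, mul_left_comm]
    rfl

/-- compressed multiplication operator -/
noncomputable def lam (k : KK F) : Module.End F (KK F) :=
  pp F * mk k * pp F + pm F * mk k * pm F

theorem mk_apply (k v : KK F) : mk k v = k * v := rfl

theorem mk_mul (k k' : KK F) : mk (k * k') = mk k * mk k' := by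
  apply LinearMap.ext
  intro v
  change k * k' * v = k * (k' * v)
  ring

theorem mk_one : mk (1 : KK F) = 1 := by
  apply LinearMap.ext
  intro v
  change 1 * v = v
  ring

theorem mk_add (k k' : KK F) : mk (k + k') = mk k + mk k' := by
  apply LinearMap.ext
  intro v
  change (k + k') * v = k * v + k' * v
  ring

theorem pm_coeff (v : KK F) (i : ℤ) : (pm F v).coeff i = if i < 0 then v.coeff i else 0 := rfl

theorem pp_coeff (v : KK F) (i : ℤ) : (pp F v).coeff i = if i < 0 then 0 else v.coeff i := by
  have : (pp F v).coeff i = v.coeff i - (pm F v).coeff i := rfl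
  rw [this, pm_coeff]
  split_ifs <;> ring

theorem pm_pm : pm F * pm F = pm F := by
  apply LinearMap.ext
  intro v
  change pm F (pm F v) = pm F v
  ext i
  rw [pm_coeff, pm_coeff]
  split_ifs <;> rfl

theorem pp_add_pm : pp F + pm F = 1 := by
  simp [pp]

theorem pp_pm : pp F * pm F = 0 := by
  rw [pp, sub_mul, one_mul, pm_pm, sub_self]

theorem pm_pp : pm F * pp F = 0 := by
  rw [pp, mul_sub, mul_one, pm_pm, sub_self]

theorem pp_pp : pp F * pp F = pp F := by
  have h : pp F * (pp F + pm F) = pp F := by rw [pp_add_pm, mul_one]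
  rw [mul_add, pp_pm, add_zero] at h
  exact h

theorem pp_lam (k : KK F) : pp F * lam k = pp F * mk k * pp F := by
  rw [lam, mul_add, ← mul_assoc, ← mul_assoc, ← mul_assoc, ← mul_assoc, pp_pp, pp_pm, zero_mul,
    zero_mul, add_zero]

theorem lam_pp (k : KK F) : lam k * pp F = pp F * mk k * pp F := by
  rw [lam, add_mul, mul_assoc _ (pp F) (pp F), mul_assoc _ (pm F) (pp F), pp_pp, pm_pp, mul_zero,
    add_zero]

theorem lam_comm (k : KK F) : pp F * lam k = lam k * pp F := by rw [pp_lam, lam_pp]

theorem lam_add (k k' : KK F) : lam (k + k') = lam k + lam k' := by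
  simp only [lam, mk_add]
  noncomm_ring

theorem lam_zero : lam (0 : KK F) = 0 := by
  have h := lam_add (0 : KK F) 0
  rw [add_zero] at h
  exact left_eq_add.mp h

theorem lam_neg (k : KK F) : lam (-k) = - lam k := by
  rw [eq_neg_iff_add_eq_zero, ← lam_add, neg_add_cancel, lam_zero]

theorem lam_one : lam (1 : KK F) = 1 := by
  rw [lam, mk_one, mul_one, mul_one, pp_pp, pm_pm, pp_add_pm]

theorem lam_mul_lam (x y : KK F) :
    lam x * lam y = lam (x * y) - pp F * mk x * (pm F * mk y * pp F)
      - (pm F * mk x * pp F) * mk y * pm F := by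
  have h1 : lam x * lam y = pp F * mk x * (pp F * pp F) * mk y * pp F
      + pp F * mk x * (pp F * pm F) * mk y * pm F + pm F * mk x * (pm F * pp F) * mk y * pp F
      + pm F * mk x * (pm F * pm F) * mk y * pm F := by
    simp only [lam]
    noncomm_ring
  have h2 : lam (x * y) = pp F * mk x * (pp F + pm F) * mk y * pp F
      + pm F * mk x * (pp F + pm F) * mk y * pm F := by
    rw [pp_add_pm, mul_one, mul_one, lam, mk_mul]
    noncomm_ring
  rw [h1, h2, pp_pp, pm_pm, pp_pm, pm_pp]
  noncomm_ring

/-- an operator whose values are supported in a fixed finite interval has finite rank -/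
theorem FR_of_supp {V : Type} [AddCommGroup V] [Module F V] (T : V →ₗ[F] KK F) (s : Finset ℤ)
    (h : ∀ v i, i ∉ s → (T v).coeff i = 0) : FR T := by
  let L : LinearMap.range T →ₗ[F] (s → F) :=
    { toFun := fun w i => (w : KK F).coeff i
      map_add' := by
        intro a b
        rfl
      map_smul' := by
        intro c a
        rfl }
  have hL : Function.Injective L := by
    intro a b hab
    apply Subtype.ext
    ext i
    by_cases hi : i ∈ s
    · exact congrFun hab ⟨i, hi⟩
    · obtain ⟨u, hu⟩ := a.2
      obtain ⟨w, hw⟩ := b.2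
      rw [← hu, ← hw, h _ _ hi, h _ _ hi]
  exact Module.Finite.of_injective L hL

theorem coeff_mul_zero {x y : KK F} {a b : ℤ} (hx : ∀ i, i < a → x.coeff i = 0)
    (hy : ∀ i, i < b → y.coeff i = 0) (c : ℤ) (hc : c < a + b) : (x * y).coeff c = 0 := by
  rw [HahnSeries.coeff_mul]
  apply Finset.sum_eq_zero
  rintro ⟨i, j⟩ hij
  rw [Finset.mem_antidiagonal] at hij
  obtain ⟨hi, hj, hs⟩ := hij
  simp only at hi hj hs ⊢
  by_cases h1 : i < a
  · rw [hx _ h1, zero_mul]
  · have h2 : j < b := by omega
    rw [hy _ h2, mul_zero]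

theorem FR_pm_pp (k : KK F) : FR (pm F * mk k * pp F) := by
  by_cases hk : k = 0
  · subst hk
    have : mk (0 : KK F) = 0 := by
      apply LinearMap.ext
      intro v
      change 0 * v = 0
      ring
    rw [this, mul_zero, zero_mul]
    exact FR.zero
  apply FR_of_supp _ (Finset.Ico k.order 0)
  intro v i hi
  change (pm F (k * pp F v)).coeff i = 0
  rw [pm_coeff]
  split_ifs with h
  · apply coeff_mul_zero (a := k.order) (b := 0)
    · intro j hj
      exact HahnSeries.coeff_eq_zero_of_lt_order hj
    · intro j hj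
      rw [pp_coeff, if_pos hj]
    · rw [Finset.mem_Ico] at hi
      omega
  · rfl

theorem FR_lam_mul (x y : KK F) : FR (lam x * lam y - lam (x * y)) := by
  rw [lam_mul_lam]
  have h1 : FR (pp F * mk x * (pm F * mk y * pp F)) := (FR_pm_pp y).mul_left _
  have h2 : FR ((pm F * mk x * pp F) * mk y * pm F) := by
    rw [mul_assoc _ (mk y)]
    exact (FR_pm_pp x).mul_right _
  have : lam (x * y) - pp F * mk x * (pm F * mk y * pp F)
      - (pm F * mk x * pp F) * mk y * pm F - lam (x * y) =
      -(pp F * mk x * (pm F * mk y * pp F)) - (pm F * mk x * pp F) * mk y * pm F := by abel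
  rw [this]
  exact h1.neg.sub h2

theorem pm_pp_zero {x : KK F} (hx : ∀ i, i < 0 → x.coeff i = 0) : pm F * mk x * pp F = 0 := by
  apply LinearMap.ext
  intro v
  ext i
  change (pm F (x * pp F v)).coeff i = 0
  rw [pm_coeff]
  split_ifs with h
  · apply coeff_mul_zero (a := 0) (b := 0) hx
    · intro j hj
      rw [pp_coeff, if_pos hj]
    · omega
  · rfl

theorem lam_mul_of_O {x y : KK F} (hx : ∀ i, i < 0 → x.coeff i = 0)
    (hy : ∀ i, i < 0 → y.coeff i = 0) : lam x * lam y = lam (x * y) := by
  rw [lam_mul_lam, pm_pp_zero hx, pm_pp_zero hy]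
  simp

theorem FR_pp_single_pm (m : ℤ) : FR (pp F * mk (single m (1 : F)) * pm F) := by
  apply FR_of_supp _ (Finset.Ico 0 m)
  intro v i hi
  change (pp F (single m (1 : F) * pm F v)).coeff i = 0
  rw [pp_coeff]
  split_ifs with h
  · rfl
  · rw [coeff_single_mul, pm_coeff]
    rw [Finset.mem_Ico] at hi
    rw [if_neg (by omega), mul_zero]

theorem FR_mk_sub_lam (m : ℤ) : FR (mk (single m (1 : F)) - lam (single m (1 : F))) := by
  have h : mk (single m (1 : F)) - lam (single m (1 : F)) =
      pp F * mk (single m (1 : F)) * pm F + pm F * mk (single m (1 : F)) * pp F := by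
    have h1 : mk (single m (1 : F)) = (pp F + pm F) * mk (single m (1 : F)) * (pp F + pm F) := by
      rw [pp_add_pm, one_mul, mul_one]
    rw [lam]
    nth_rw 1 [h1]
    noncomm_ring
  rw [h]
  exact (FR_pp_single_pm m).add (FR_pm_pp _)

/-- every nonzero Laurent series acts as a unit up to finite rank -/
theorem exists_unit (k : KK F) (hk : k ≠ 0) :
    ∃ U U' : Module.End F (KK F), U' * U = 1 ∧ U * U' = 1 ∧ FR (lam k - U) := by
  set m := k.order with hm
  set e : KK F := single (-m) (1 : F) * k with he
  have hs : single (-m) (1 : F) ≠ 0 := by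
    simp
  have hss : single m (1 : F) * single (-m) (1 : F) = (1 : KK F) := by
    rw [single_mul_single]
    simp
  have hss' : single (-m) (1 : F) * single m (1 : F) = (1 : KK F) := by
    rw [mul_comm]; exact hss
  have hke : k = single m (1 : F) * e := by
    rw [he, ← mul_assoc, hss, one_mul]
  have he0 : e ≠ 0 := mul_ne_zero hs hk
  have hoe : e.order = 0 := by
    rw [he, HahnSeries.order_mul hs hk, HahnSeries.order_single one_ne_zero]
    omega
  have hoe' : (e⁻¹).order = 0 := by
    have h1 := HahnSeries.order_mul he0 (inv_ne_zero he0)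
    rw [mul_inv_cancel₀ he0, HahnSeries.order_one, hoe] at h1
    omega
  have hO : ∀ i, i < 0 → e.coeff i = 0 := fun i hi =>
    HahnSeries.coeff_eq_zero_of_lt_order (by rw [hoe]; exact hi)
  have hO' : ∀ i, i < 0 → (e⁻¹).coeff i = 0 := fun i hi =>
    HahnSeries.coeff_eq_zero_of_lt_order (by rw [hoe']; exact hi)
  refine ⟨mk (single m 1) * lam e, lam e⁻¹ * mk (single (-m) 1), ?_, ?_, ?_⟩
  · calc lam e⁻¹ * mk (single (-m) 1) * (mk (single m 1) * lam e)
        = lam e⁻¹ * (mk (single (-m) 1) * mk (single m 1)) * lam e := by noncomm_ring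
      _ = 1 := by
        rw [← mk_mul, hss', mk_one, mul_one, lam_mul_of_O hO' hO, inv_mul_cancel₀ he0, lam_one]
  · calc mk (single m 1) * lam e * (lam e⁻¹ * mk (single (-m) 1))
        = mk (single m 1) * (lam e * lam e⁻¹) * mk (single (-m) 1) := by noncomm_ring
      _ = 1 := by
        rw [lam_mul_of_O hO hO', mul_inv_cancel₀ he0, lam_one, mul_one, ← mk_mul, hss, mk_one]
  · have h1 : lam k - mk (single m 1) * lam e =
        -(lam (single m 1) * lam e - lam (single m 1 * e)) -
          (mk (single m 1) - lam (single m 1)) * lam e := by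
      rw [← hke, sub_mul]
      abel
    rw [h1]
    exact (FR_lam_mul _ _).neg.sub ((FR_mk_sub_lam m).mul_right _)

/-! the operator `lam t` -/

/-- the variable -/
noncomputable def tt : KK F := single 1 (1 : F)

theorem lam_tt_coeff_zero (v : KK F) : (lam (tt : KK F) v).coeff 0 = 0 := by
  have h : (lam (tt : KK F) v).coeff 0 =
      (pp F (tt * pp F v)).coeff 0 + (pm F (tt * pm F v)).coeff 0 := rfl
  rw [h, pp_coeff, pm_coeff, if_neg (by omega), if_neg (by omega), tt, coeff_single_mul, pp_coeff,
    if_pos (by omega)]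
  ring

theorem lam_tt_inj_O {v : KK F} (hv : pp F v = v) (h : lam (tt : KK F) v = 0) : v = 0 := by
  ext i
  have h1 : (lam (tt : KK F) v).coeff (i + 1) =
      (pp F (tt * pp F v)).coeff (i + 1) + (pm F (tt * pm F v)).coeff (i + 1) := rfl
  have hpm : pm F v = 0 := by
    have := LinearMap.congr_fun (pm_pp (F := F)) v
    change pm F (pp F v) = 0 at this
    rwa [hv] at this
  rw [h, hpm, hv, pp_coeff, tt] at h1
  by_cases hi : i < 0
  · rw [← hv, pp_coeff, if_pos hi]
    rfl
  · rw [if_neg (by omega), coeff_single_mul] at h1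
    simpa using h1.symm

theorem lam_tt_inj_C {v : KK F} (hv : pp F v = 0) (h : lam (tt : KK F) v = 0)
    (hc : v.coeff (-1) = 0) : v = 0 := by
  have hpm : pm F v = v := by
    have := LinearMap.congr_fun (pp_add_pm (F := F)) v
    change pp F v + pm F v = v at this
    rwa [hv, zero_add] at this
  ext i
  have h1 : (lam (tt : KK F) v).coeff (i + 1) =
      (pp F (tt * pp F v)).coeff (i + 1) + (pm F (tt * pm F v)).coeff (i + 1) := rfl
  rw [h, hpm, hv, pm_coeff, tt] at h1
  by_cases hi : i < -1
  · rw [if_pos (by omega), coeff_single_mul] at h1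
    simpa using h1.symm
  · by_cases hi2 : i = -1
    · rw [hi2, hc]
      rfl
    · rw [← hpm, pm_coeff, if_neg (by omega)]
      rfl

/-- constants -/
noncomputable def cst (c : F) : KK F := single 0 c

end Pool.Agent.Q98.RegDF
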