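import Mathlib

/-! Finite-rank endomorphisms of a vector space: generic facts. -/

set_option autoImplicit false

namespace Pool.Agent.Q98.RegDF

open Module

section Lin

variable {F : Type} [Field F]
variable {V W U : Type} [AddCommGroup V] [Module F V] [AddCommGroup W] [Module F W]
  [AddCommGroup U] [Module F U]

/-- finite rank -/
def FR (T : V →ₗ[F] W) : Prop := FiniteDimensional F (LinearMap.range T)

theorem FR.of_le {T : V →ₗ[F] W} {K : Submodule F W} [FiniteDimensional F K]
    (h : LinearMap.range T ≤ K) : FR T := Submodule.finiteDimensional_of_le h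

theorem FR.zero : FR (0 : V →ₗ[F] W) := by
  apply FR.of_le (K := ⊥)
  rintro x ⟨y, rfl⟩
  simp

theorem FR.add {T T' : V →ₗ[F] W} (h : FR T) (h' : FR T') : FR (T + T') := by
  have i1 : FiniteDimensional F (LinearMap.range T) := h
  have i2 : FiniteDimensional F (LinearMap.range T') := h'
  apply FR.of_le (K := LinearMap.range T ⊔ LinearMap.range T')
  rintro x ⟨y, rfl⟩
  exact Submodule.add_mem_sup ⟨y, rfl⟩ ⟨y, rfl⟩

theorem FR.neg {T : V →ₗ[F] W} (h : FR T) : FR (-T) := by
  have i1 : FiniteDimensional F (LinearMap.range T) := h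
  apply FR.of_le (K := LinearMap.range T)
  rintro x ⟨y, rfl⟩
  exact ⟨-y, by simp⟩

theorem FR.sub {T T' : V →ₗ[F] W} (h : FR T) (h' : FR T') : FR (T - T') := by
  rw [sub_eq_add_neg]
  exact h.add h'.neg

theorem FR.comp_right {T : V →ₗ[F] W} (h : FR T) (A : U →ₗ[F] V) : FR (T.comp A) := by
  have i1 : FiniteDimensional F (LinearMap.range T) := h
  apply FR.of_le (K := LinearMap.range T)
  rintro x ⟨y, rfl⟩
  exact ⟨A y, rfl⟩

theorem FR.comp_left {T : V →ₗ[F] W} (h : FR T) (A : W →ₗ[F] U) : FR (A.comp T) := by
  have i1 : FiniteDimensional F (LinearMap.range T) := h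
  apply FR.of_le (K := (LinearMap.range T).map A)
  rintro x ⟨y, rfl⟩
  exact ⟨T y, ⟨y, rfl⟩, rfl⟩

theorem FR.sum {ι : Type} (s : Finset ι) (T : ι → (V →ₗ[F] W)) (h : ∀ i ∈ s, FR (T i)) :
    FR (∑ i ∈ s, T i) := by
  classical
  induction s using Finset.induction_on with
  | empty => simpa using FR.zero
  | insert a s ha ih =>
    rw [Finset.sum_insert ha]
    exact (h a (Finset.mem_insert_self _ _)).add (ih fun i hi => h i (Finset.mem_insert_of_mem hi))

theorem FR.mul_left {T : Module.End F V} (h : FR T) (A : Module.End F V) : FR (A * T) :=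
  FR.comp_left h A

theorem FR.mul_right {T : Module.End F V} (h : FR T) (A : Module.End F V) : FR (T * A) :=
  FR.comp_right h A

theorem FR.smulRight (φ : V →ₗ[F] F) (w : W) : FR (φ.smulRight w) := by
  apply FR.of_le (K := Submodule.span F {w})
  rintro x ⟨y, rfl⟩
  exact Submodule.smul_mem _ _ (Submodule.mem_span_singleton_self w)

/-- a finite rank map is a finite sum of rank one maps whose vectors lie in the range and whose functionals factor
through the map -/
theorem FR.exists_sum {T : V →ₗ[F] W} (h : FR T) :
    ∃ (n : ℕ) (b : Fin n → W) (φ : Fin n → (V →ₗ[F] F)),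
      (∀ i, b i ∈ LinearMap.range T) ∧ (∀ i v v', T v = T v' → φ i v = φ i v') ∧
      T = ∑ i, (φ i).smulRight (b i) := by
  have _i : FiniteDimensional F (LinearMap.range T) := h
  let B := Module.finBasis F (LinearMap.range T)
  refine ⟨_, fun i => (B i : W), fun i => (B.coord i).comp T.rangeRestrict, ?_, ?_, ?_⟩
  · intro i
    exact (B i).2
  · intro i v v' hv
    have : T.rangeRestrict v = T.rangeRestrict v' := Subtype.ext hv
    simp [this]
  · ext v
    have h1 := congrArg (Subtype.val) (B.sum_repr (T.rangeRestrict v))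
    rw [Submodule.coe_sum] at h1
    simp only [LinearMap.coe_sum, Finset.sum_apply, LinearMap.smulRight_apply,
      LinearMap.comp_apply]
    have h2 : T v = ((T.rangeRestrict v : LinearMap.range T) : W) := rfl
    rw [h2, ← h1]
    rfl

/-- every endomorphism has a quasi-inverse -/
theorem exists_qinv (T : Module.End F V) : ∃ G : Module.End F V, T * G * T = T := by
  obtain ⟨S, hS⟩ := T.rangeRestrict.exists_rightInverse_of_surjective (LinearMap.range_rangeRestrict T)
  obtain ⟨L, hL⟩ := (LinearMap.range T).exists_isCompl
  let q := (LinearMap.range T).projectionOnto L hL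
  refine ⟨S.comp q, ?_⟩
  ext v
  have h1 : q (T v) = T.rangeRestrict v := by
    have : q ((T.rangeRestrict v : LinearMap.range T) : V) = T.rangeRestrict v :=
      Submodule.projectionOnto_apply_left hL _
    simpa using this
  have h2 : T (S (T.rangeRestrict v)) = T v := by
    have := LinearMap.congr_fun hS (T.rangeRestrict v)
    have h3 := congrArg Subtype.val this
    simpa using h3
  change T (S (q (T v))) = T v
  rw [h1, h2]

/-- identity plus finite rank: surjective implies injective -/
theorem inj_of_surj_one_add {T f : Module.End F V} (hT : T = 1 + f) (hf : FR f)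
    (hs : Function.Surjective T) : Function.Injective T := by
  have _i : FiniteDimensional F (LinearMap.range f) := hf
  have hTv : ∀ v, T v = v + f v := by intro v; rw [hT]; rfl
  have hmaps : ∀ w ∈ LinearMap.range f, T w ∈ LinearMap.range f := by
    intro w hw
    rw [hTv]
    exact Submodule.add_mem _ hw ⟨w, rfl⟩
  let T' : LinearMap.range f →ₗ[F] LinearMap.range f := T.restrict hmaps
  have hs' : Function.Surjective T' := by
    intro w
    obtain ⟨v, hv⟩ := hs (w : V)
    have hvr : v ∈ LinearMap.range f := by
      have : v = w - f v := by rw [← hv, hTv]; abel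
      rw [this]
      exact Submodule.sub_mem _ w.2 ⟨v, rfl⟩
    exact ⟨⟨v, hvr⟩, Subtype.ext hv⟩
  have hi' : Function.Injective T' := LinearMap.injective_iff_surjective.mpr hs'
  rw [injective_iff_map_eq_zero]
  intro v hv
  have hvr : v ∈ LinearMap.range f := by
    have h1 : v + f v = 0 := by rw [← hTv]; exact hv
    have : v = - f v := eq_neg_of_add_eq_zero_left h1
    rw [this]
    exact Submodule.neg_mem _ ⟨v, rfl⟩
  have h2 : T' ⟨v, hvr⟩ = 0 := Subtype.ext hv
  have h3 : (⟨v, hvr⟩ : LinearMap.range f) = 0 := hi' (by rw [h2, map_zero])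
  exact congrArg Subtype.val h3

/-- unit plus finite rank: right inverse is an inverse -/
theorem mul_eq_one_of_unit_add {x y U U' f : Module.End F V} (hU : U' * U = 1)
    (hx : x = U + f) (hf : FR f) (h : x * y = 1) : y * x = 1 := by
  have hs : Function.Surjective x := by
    intro v
    exact ⟨y v, LinearMap.congr_fun h v⟩
  have hU's : Function.Surjective U' := fun v => ⟨U v, LinearMap.congr_fun hU v⟩
  have h1 : U' * x = 1 + U' * f := by rw [hx, mul_add, hU]
  have hs2 : Function.Surjective (U' * x : Module.End F V) := by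
    intro v
    obtain ⟨w, hw⟩ := hU's v
    obtain ⟨z, hz⟩ := hs w
    exact ⟨z, by change U' (x z) = v; rw [hz, hw]⟩
  have hi : Function.Injective (U' * x : Module.End F V) :=
    inj_of_surj_one_add h1 (hf.mul_left _) hs2
  have hix : Function.Injective x := by
    intro a b hab
    apply hi
    change U' (x a) = U' (x b)
    rw [hab]
  ext v
  apply hix
  change (x * y) (x v) = x v
  rw [h]
  rfl

theorem mul_eq_one_of_FR {x y : Module.End F V} (hx : FR x) (h : x * y = 1) : y * x = 1 := by
  have h1 : FR (1 : Module.End F V) := by rw [← h]; exact hx.mul_right y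
  have _i : FiniteDimensional F (LinearMap.range (1 : Module.End F V)) := h1
  have _i : FiniteDimensional F V := by
    have h2 : LinearMap.range (1 : Module.End F V) = ⊤ := by
      rw [LinearMap.range_eq_top]
      intro v
      exact ⟨v, rfl⟩
    have h3 : FiniteDimensional F (⊤ : Submodule F V) := by rw [← h2]; exact h1
    exact Module.finite_def.mpr ((Submodule.fg_iff_finiteDimensional _).mpr h3)
  exact mul_eq_one_comm.mp h

end Lin

end Pool.Agent.Q98.RegDF
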