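import Pool.Agent.Q98.RegDF.Lau

/-! The finite stage: operators on `I → K` commuting with a parity projection and congruent to a diagonal
compressed multiplication modulo finite rank. -/

set_option autoImplicit false

namespace Pool.Agent.Q98.RegDF

open HahnSeries

variable {F : Type} [Field F]

section Diag

variable {I : Type}

/-- diagonal operator -/
noncomputable def diag (f : I → Module.End F (KK F)) : Module.End F (I → KK F) where
  toFun v i := f i (v i)
  map_add' v w := by
    funext i
    exact (f i).map_add _ _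
  map_smul' c v := by
    funext i
    exact (f i).map_smul _ _

theorem diag_mul (f g : I → Module.End F (KK F)) :
    diag f * diag g = diag (fun i => f i * g i) := rfl

theorem diag_add (f g : I → Module.End F (KK F)) :
    diag f + diag g = diag (fun i => f i + g i) := rfl

theorem diag_sub (f g : I → Module.End F (KK F)) :
    diag f - diag g = diag (fun i => f i - g i) := rfl

theorem diag_one : diag (fun _ : I => (1 : Module.End F (KK F))) = 1 := rfl

theorem diag_zero : diag (fun _ : I => (0 : Module.End F (KK F))) = 0 := rfl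

/-- inclusion of a coordinate -/
noncomputable def inc [DecidableEq I] (i : I) : KK F →ₗ[F] (I → KK F) := LinearMap.single F (fun _ => KK F) i

theorem FR_diag [Fintype I] {f : I → Module.End F (KK F)} (h : ∀ i, FR (f i)) : FR (diag f) := by
  classical
  have h1 : diag f = ∑ i, (inc i).comp ((f i).comp (LinearMap.proj i)) := by
    apply LinearMap.ext
    intro v
    rw [LinearMap.sum_apply]
    funext j
    rw [Finset.sum_apply, Finset.sum_eq_single j]
    · simp [diag, inc]
    · intro i _ hij
      simp [inc, hij.symm]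
    · intro hj
      exact absurd (Finset.mem_univ j) hj
  rw [h1]
  apply FR.sum
  intro i _
  exact ((h i).comp_right _).comp_left _

end Diag

section Stage

variable {I : Type} (e : I → Bool)

/-- the parity projection -/
noncomputable def PI : Module.End F (I → KK F) := diag fun i => if e i then pm F else pp F

/-- diagonal compressed multiplication -/
noncomputable def LI (k : KK F) : Module.End F (I → KK F) := diag fun _ => lam k

variable {e}

theorem PI_PI : PI (F := F) e * PI e = PI e := by
  rw [PI, diag_mul]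
  congr 1
  funext i
  split_ifs
  · exact pm_pm
  · exact pp_pp

theorem lam_comm' (k : KK F) : pm F * lam k = lam k * pm F := by
  have h : pm F = 1 - pp F := by rw [← pp_add_pm]; abel
  rw [h, sub_mul, mul_sub, one_mul, mul_one, lam_comm]

theorem LI_comm (k : KK F) : PI e * LI k = LI k * PI e := by
  rw [PI, LI, diag_mul, diag_mul]
  congr 1
  funext i
  split_ifs
  · exact lam_comm' k
  · exact lam_comm k

theorem LI_add (k k' : KK F) : LI (I := I) (k + k') = LI k + LI k' := by
  simp only [LI, lam_add, diag_add]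

theorem LI_neg (k : KK F) : LI (I := I) (-k) = - LI k := by
  simp only [LI, lam_neg]
  rfl

theorem LI_zero : LI (I := I) (0 : KK F) = 0 := by
  simp only [LI, lam_zero]
  rfl

theorem LI_one : LI (I := I) (1 : KK F) = 1 := by
  simp only [LI, lam_one]
  rfl

variable [Fintype I]

theorem LI_mul (k k' : KK F) : FR (LI (I := I) k * LI k' - LI (k * k')) := by
  rw [LI, LI, LI, diag_mul, diag_sub]
  exact FR_diag fun _ => FR_lam_mul k k'

theorem LI_unit (k : KK F) (hk : k ≠ 0) :
    ∃ U U' : Module.End F (I → KK F), U' * U = 1 ∧ U * U' = 1 ∧ FR (LI k - U) := by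
  obtain ⟨U, U', h1, h2, h3⟩ := exists_unit k hk
  refine ⟨diag fun _ => U, diag fun _ => U', ?_, ?_, ?_⟩
  · rw [diag_mul, h1, diag_one]
  · rw [diag_mul, h2, diag_one]
  · rw [LI, diag_sub]
    exact FR_diag fun _ => h3

theorem mul_congr {x y : Module.End F (I → KK F)} {k k' : KK F} (hx : FR (x - LI k))
    (hy : FR (y - LI k')) : FR (x * y - LI (k * k')) := by
  have h : x * y - LI (k * k') = (x - LI k) * y + LI k * (y - LI k') +
      (LI k * LI k' - LI (k * k')) := by
    rw [sub_mul, mul_sub]
    abel
  rw [h]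
  exact ((hx.mul_right _).add (hy.mul_left _)).add (LI_mul k k')

variable (e) in
/-- the ring at a finite stage -/
noncomputable def Rs : Subring (Module.End F (I → KK F)) where
  carrier := {x | PI e * x = x * PI e ∧ ∃ k : KK F, FR (x - LI k)}
  mul_mem' := by
    rintro x y ⟨hx, k, hk⟩ ⟨hy, k', hk'⟩
    refine ⟨?_, k * k', mul_congr hk hk'⟩
    rw [← mul_assoc, hx, mul_assoc, hy, mul_assoc]
  one_mem' := by
    refine ⟨by rw [mul_one, one_mul], 1, ?_⟩
    rw [LI_one, sub_self]
    exact FR.zero
  add_mem' := by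
    rintro x y ⟨hx, k, hk⟩ ⟨hy, k', hk'⟩
    refine ⟨by rw [mul_add, add_mul, hx, hy], k + k', ?_⟩
    have h : x + y - LI (k + k') = (x - LI k) + (y - LI k') := by
      rw [LI_add]
      abel
    rw [h]
    exact hk.add hk'
  zero_mem' := by
    refine ⟨by rw [mul_zero, zero_mul], 0, ?_⟩
    rw [LI_zero, sub_self]
    exact FR.zero
  neg_mem' := by
    rintro x ⟨hx, k, hk⟩
    have e1 : PI e * -x = -(PI e * x) := LinearMap.ext fun v => (PI e).map_neg (x v)
    have e2 : -x * PI e = -(x * PI e) := rfl
    refine ⟨by rw [e1, e2, hx], -k, ?_⟩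
    have h : -x - LI (-k) = -(x - LI k) := by
      rw [LI_neg]
      abel
    rw [h]
    exact hk.neg

theorem mem_Rs {x : Module.End F (I → KK F)} :
    x ∈ Rs e ↔ PI e * x = x * PI e ∧ ∃ k : KK F, FR (x - LI k) := Iff.rfl

theorem LI_mem (k : KK F) : LI k ∈ Rs (I := I) e :=
  ⟨LI_comm k, k, by rw [sub_self]; exact FR.zero⟩

theorem FR_mem {x : Module.End F (I → KK F)} (h : PI e * x = x * PI e) (hx : FR x) : x ∈ Rs e :=
  ⟨h, 0, by rw [LI_zero, sub_zero]; exact hx⟩

/-- commutators have finite rank -/
theorem FR_comm {x y : Module.End F (I → KK F)} (hx : x ∈ Rs e) (hy : y ∈ Rs e) :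
    FR (x * y - y * x) := by
  obtain ⟨_, k, hk⟩ := hx
  obtain ⟨_, k', hk'⟩ := hy
  have h1 := mul_congr hk hk'
  have h2 := mul_congr hk' hk
  have h : x * y - y * x = (x * y - LI (k * k')) - (y * x - LI (k' * k)) := by
    rw [mul_comm k' k]
    abel
  rw [h]
  exact h1.sub h2

/-- the stage rings are regular -/
theorem Rs_regular {x : Module.End F (I → KK F)} (hx : x ∈ Rs e) :
    ∃ y ∈ Rs e, x * y * x = x := by
  obtain ⟨hc, k, hk⟩ := hx
  obtain ⟨y', hy'⟩ := exists_qinv x
  set P := PI (F := F) e with hP
  have hPP : P * P = P := PI_PI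
  set Q := 1 - P with hQ
  have hQQ : Q * Q = Q := by
    rw [hQ, sub_mul, one_mul, mul_sub, mul_one, hPP, sub_self, sub_zero]
  have hPQ : P * Q = 0 := by rw [hQ, mul_sub, mul_one, hPP, sub_self]
  have hQP : Q * P = 0 := by rw [hQ, sub_mul, one_mul, hPP, sub_self]
  have hcQ : Q * x = x * Q := by rw [hQ, sub_mul, mul_sub, hc, one_mul, mul_one]
  set y := P * y' * P + Q * y' * Q with hy
  have hyP : P * y = y * P := by
    rw [hy, mul_add, add_mul]
    have e1 : P * (P * y' * P) = (P * P) * y' * P := by noncomm_ring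
    have e2 : P * (Q * y' * Q) = (P * Q) * y' * Q := by noncomm_ring
    have e3 : P * y' * P * P = P * y' * (P * P) := by noncomm_ring
    have e4 : Q * y' * Q * P = Q * y' * (Q * P) := by noncomm_ring
    rw [e1, e2, e3, e4, hPP, hPQ, hQP]
    simp
  have hxyx : x * y * x = x := by
    have e1 : x * y * x = (x * P) * y' * (P * x) + (x * Q) * y' * (Q * x) := by
      rw [hy]
      noncomm_ring
    have f1 : x * P * y' * (P * x) = P * (x * y' * x) * P := by
      calc x * P * y' * (P * x) = (P * x) * y' * (x * P) := by rw [hc]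
        _ = P * (x * y' * x) * P := by noncomm_ring
    have f2 : x * Q * y' * (Q * x) = Q * (x * y' * x) * Q := by
      calc x * Q * y' * (Q * x) = (Q * x) * y' * (x * Q) := by rw [hcQ]
        _ = Q * (x * y' * x) * Q := by noncomm_ring
    rw [e1, f1, f2, hy', hc, hcQ, mul_assoc, mul_assoc, hPP, hQQ, ← mul_add]
    have : P + Q = 1 := by rw [hQ]; abel
    rw [this, mul_one]
  by_cases hk0 : k = 0
  · subst hk0
    rw [LI_zero, sub_zero] at hk
    refine ⟨y * x * y, FR_mem ?_ ?_, ?_⟩
    · calc P * (y * x * y) = (P * y) * x * y := by noncomm_ring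
        _ = y * (P * x) * y := by rw [hyP]; noncomm_ring
        _ = y * x * (P * y) := by rw [hc]; noncomm_ring
        _ = y * x * y * P := by rw [hyP]; noncomm_ring
    · exact (hk.mul_left _).mul_right _
    · calc x * (y * x * y) * x = (x * y * x) * y * x := by noncomm_ring
        _ = x := by rw [hxyx, hxyx]
  · refine ⟨y, ⟨hyP, k⁻¹, ?_⟩, hxyx⟩
    -- y ≡ L(k⁻¹) x y x L(k⁻¹)
    have hl : FR (1 - LI k⁻¹ * x) := by
      have h0 : FR (LI (I := I) k⁻¹ - LI k⁻¹) := by rw [sub_self]; exact FR.zero
      have h1 := mul_congr h0 hk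
      rw [inv_mul_cancel₀ hk0, LI_one] at h1
      have : (1 : Module.End F (I → KK F)) - LI k⁻¹ * x = -(LI k⁻¹ * x - 1) := by abel
      rw [this]
      exact h1.neg
    have hr : FR (1 - x * LI k⁻¹) := by
      have h0 : FR (LI (I := I) k⁻¹ - LI k⁻¹) := by rw [sub_self]; exact FR.zero
      have h1 := mul_congr hk h0
      rw [mul_inv_cancel₀ hk0, LI_one] at h1
      have : (1 : Module.End F (I → KK F)) - x * LI k⁻¹ = -(x * LI k⁻¹ - 1) := by abel
      rw [this]
      exact h1.neg
    have e1 : y - LI k⁻¹ = (1 - LI k⁻¹ * x) * y + LI k⁻¹ * x * y * (1 - x * LI k⁻¹)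
        - LI k⁻¹ * (1 - x * LI k⁻¹) := by
      have : LI k⁻¹ * x * y * (1 - x * LI k⁻¹) =
          LI k⁻¹ * x * y - LI k⁻¹ * (x * y * x) * LI k⁻¹ := by
        simp only [mul_sub, mul_one, mul_assoc]
      rw [this, hxyx]
      simp only [sub_mul, mul_sub, one_mul, mul_one, mul_assoc]
      abel
    rw [e1]
    exact ((hl.mul_right _).add (hr.mul_left _)).sub (hr.mul_left _)

/-- the stage rings are directly finite -/
theorem Rs_df {x y : Module.End F (I → KK F)} (hx : x ∈ Rs e) (h : x * y = 1) : y * x = 1 := by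
  obtain ⟨_, k, hk⟩ := hx
  by_cases hk0 : k = 0
  · subst hk0
    rw [LI_zero, sub_zero] at hk
    exact mul_eq_one_of_FR hk h
  · obtain ⟨U, U', h1, _, h3⟩ := LI_unit (I := I) k hk0
    apply mul_eq_one_of_unit_add (f := x - U) h1 (by abel) _ h
    have : x - U = (x - LI k) + (LI k - U) := by abel
    rw [this]
    exact hk.add h3

/-- rank one operators in the stage ring -/
theorem rank_one_comm {V : Type} [AddCommGroup V] [Module F V] {P Q : Module.End F V}
    (hPQ : P * Q = Q ∧ Q * P = Q ∨ P * Q = 0 ∧ Q * P = 0) (b : V) (φ : V →ₗ[F] F)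
    (hb : Q b = b) (hφ : ∀ v, φ (Q v) = φ v) :
    P * (φ.smulRight b) = (φ.smulRight b) * P := by
  apply LinearMap.ext
  intro v
  change P (φ v • b) = φ (P v) • b
  rw [map_smul]
  rcases hPQ with ⟨h1, h2⟩ | ⟨h1, h2⟩
  · have e1 : P b = b := by
      have := LinearMap.congr_fun h1 b
      change P (Q b) = Q b at this
      rwa [hb] at this
    have e2 : φ (P v) = φ v := by
      rw [← hφ (P v)]
      have := LinearMap.congr_fun h2 v
      change Q (P v) = Q v at this
      rw [this, hφ]
    rw [e1, e2]
  · have e1 : P b = 0 := by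
      have := LinearMap.congr_fun h1 b
      change P (Q b) = 0 at this
      rwa [hb] at this
    have e2 : φ (P v) = 0 := by
      rw [← hφ (P v)]
      have := LinearMap.congr_fun h2 v
      change Q (P v) = 0 at this
      rw [this, map_zero]
    rw [e1, e2]
    simp

/-- half of the simplicity statement -/
theorem half_simple {S : Type} [Ring S] (g : Rs (F := F) e →+* S) {Q : Module.End F (I → KK F)}
    (hPQ : PI e * Q = Q ∧ Q * PI e = Q ∨ PI e * Q = 0 ∧ Q * PI e = 0) (hQQ : Q * Q = Q)
    (z : Rs (F := F) e) (hQc : Q * (z : Module.End F (I → KK F)) = z * Q)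
    (hz : Q * (z : Module.End F (I → KK F)) ≠ 0) (hgz : g z = 0)
    (y : Rs (F := F) e) (hy : FR (y : Module.End F (I → KK F)))
    (hQy : Q * (y : Module.End F (I → KK F)) = y) (hyQ : (y : Module.End F (I → KK F)) * Q = y) :
    g y = 0 := by
  -- a vector not killed by Q z
  obtain ⟨v0, hv0⟩ : ∃ v, Q ((z : Module.End F (I → KK F)) v) ≠ 0 := by
    by_contra hcon
    push Not at hcon
    apply hz
    apply LinearMap.ext
    intro v
    exact hcon v
  set v1 := Q v0 with hv1
  have hQv1 : Q v1 = v1 := LinearMap.congr_fun hQQ v0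
  have hzv1 : (z : Module.End F (I → KK F)) v1 = Q ((z : Module.End F (I → KK F)) v0) :=
    (LinearMap.congr_fun hQc v0).symm
  have hzv1' : (z : Module.End F (I → KK F)) v1 ≠ 0 := by rw [hzv1]; exact hv0
  have hQzv1 : Q ((z : Module.End F (I → KK F)) v1) = (z : Module.End F (I → KK F)) v1 := by
    rw [hzv1]
    exact LinearMap.congr_fun hQQ _
  obtain ⟨ψ, hψ⟩ : ∃ ψ : (I → KK F) →ₗ[F] F, ψ ((z : Module.End F (I → KK F)) v1) = 1 := by
    have h0 : ∃ φ : Module.Dual F (I → KK F), φ ((z : Module.End F (I → KK F)) v1) ≠ 0 := by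
      by_contra hcon
      push Not at hcon
      exact hzv1' ((Module.forall_dual_apply_eq_zero_iff F _).mp hcon)
    obtain ⟨φ, hφ⟩ := h0
    exact ⟨(φ ((z : Module.End F (I → KK F)) v1))⁻¹ • φ, inv_mul_cancel₀ hφ⟩
  obtain ⟨n, b, φ, hb, hφ, hsum⟩ := hy.exists_sum
  have hQb : ∀ i, Q (b i) = b i := by
    intro i
    obtain ⟨w, hw⟩ := hb i
    rw [← hw]
    exact LinearMap.congr_fun hQy w
  have hφQ : ∀ i v, φ i (Q v) = φ i v := by
    intro i v
    exact hφ i _ _ (LinearMap.congr_fun hyQ v)
  set ψ' := ψ.comp Q with hψ'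
  have hψQ : ∀ v, ψ' (Q v) = ψ' v := by
    intro v
    change ψ (Q (Q v)) = ψ (Q v)
    have := LinearMap.congr_fun hQQ v
    change Q (Q v) = Q v at this
    rw [this]
  let α : Fin n → Rs (F := F) e := fun i =>
    ⟨ψ'.smulRight (b i), FR_mem (rank_one_comm hPQ _ _ (hQb i) hψQ) (FR.smulRight _ _)⟩
  let β : Fin n → Rs (F := F) e := fun i =>
    ⟨(φ i).smulRight v1, FR_mem (rank_one_comm hPQ _ _ hQv1 (hφQ i)) (FR.smulRight _ _)⟩
  have hy' : y = ∑ i, α i * z * β i := by
    apply Subtype.ext
    rw [AddSubmonoidClass.coe_finsetSum]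
    rw [hsum]
    apply Finset.sum_congr rfl
    intro i _
    apply LinearMap.ext
    intro v
    change φ i v • b i = ψ' ((z : Module.End F (I → KK F)) (φ i v • v1)) • b i
    rw [map_smul, map_smul]
    congr 1
    change φ i v = φ i v • ψ (Q ((z : Module.End F (I → KK F)) v1))
    rw [hQzv1, hψ]
    simp
  rw [hy', map_sum]
  apply Finset.sum_eq_zero
  intro i _
  rw [map_mul, map_mul, hgz, mul_zero, zero_mul]

/-- every ideal that contains an element with both parts nonzero contains all finite rank elements -/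
theorem simple {S : Type} [Ring S] (g : Rs (F := F) e →+* S)
    (z : Rs (F := F) e) (hz1 : PI e * (z : Module.End F (I → KK F)) ≠ 0)
    (hz2 : (1 - PI e) * (z : Module.End F (I → KK F)) ≠ 0) (hgz : g z = 0)
    (y : Rs (F := F) e) (hy : FR (y : Module.End F (I → KK F))) : g y = 0 := by
  have hPP : PI (F := F) e * PI e = PI e := PI_PI
  obtain ⟨P, hP⟩ : ∃ P : Module.End F (I → KK F), P = PI e := ⟨_, rfl⟩
  obtain ⟨Q, hQ⟩ : ∃ Q : Module.End F (I → KK F), Q = 1 - P := ⟨_, rfl⟩
  rw [← hP] at hPP hz1 hz2
  rw [← hQ] at hz2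
  have hQQ : Q * Q = Q := by
    rw [hQ, sub_mul, one_mul, mul_sub, mul_one, hPP, sub_self, sub_zero]
  have hPQ : P * Q = 0 := by rw [hQ, mul_sub, hPP, mul_one, sub_self]
  have hQP : Q * P = 0 := by rw [hQ, sub_mul, hPP, one_mul, sub_self]
  have hzc : P * (z : Module.End F (I → KK F)) = z * P := by rw [hP]; exact z.2.1
  have hyc : P * (y : Module.End F (I → KK F)) = y * P := by rw [hP]; exact y.2.1
  have hzcQ : Q * (z : Module.End F (I → KK F)) = z * Q := by
    rw [hQ, sub_mul, mul_sub, hzc, one_mul, mul_one]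
  have hycQ : Q * (y : Module.End F (I → KK F)) = y * Q := by
    rw [hQ, sub_mul, mul_sub, hyc, one_mul, mul_one]
  have hPm : P * (y : Module.End F (I → KK F)) ∈ Rs e := by
    refine FR_mem ?_ (hy.mul_left _)
    rw [← hP, mul_assoc, ← hyc]
  have hQm : Q * (y : Module.End F (I → KK F)) ∈ Rs e := by
    refine FR_mem ?_ (hy.mul_left _)
    rw [← hP, mul_assoc _ _ P, ← hyc, ← mul_assoc, ← mul_assoc, hPQ, hQP]
  have h1 : g ⟨P * (y : Module.End F (I → KK F)), hPm⟩ = 0 := by
    apply half_simple g (Q := P) (Or.inl ⟨by rw [← hP]; exact hPP, by rw [← hP]; exact hPP⟩) hPP z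
      hzc hz1 hgz _ (hy.mul_left _)
    · rw [← mul_assoc, hPP]
    · rw [mul_assoc, ← hyc, ← mul_assoc, hPP]
  have h2 : g ⟨Q * (y : Module.End F (I → KK F)), hQm⟩ = 0 := by
    apply half_simple g (Q := Q) (Or.inr ⟨by rw [← hP]; exact hPQ, by rw [← hP]; exact hQP⟩) hQQ z
      hzcQ hz2 hgz _ (hy.mul_left _)
    · rw [← mul_assoc, hQQ]
    · rw [mul_assoc, ← hycQ, ← mul_assoc, hQQ]
  have h3 : y = ⟨P * (y : Module.End F (I → KK F)), hPm⟩ +
      ⟨Q * (y : Module.End F (I → KK F)), hQm⟩ := by
    apply Subtype.ext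
    change (y : Module.End F (I → KK F)) = P * y + Q * y
    rw [hQ, sub_mul, one_mul]
    abel
  rw [h3, map_add, h1, h2, add_zero]

/-- the index obstruction: `t` is not unit regular at a stage with more even than odd words -/
theorem card_le {u u' : Module.End F (I → KK F)} (hu : u ∈ Rs e) (h1 : u' * u = 1)
    (h : LI tt * u * LI tt = LI tt) :
    Fintype.card {i // e i = false} ≤ Fintype.card {i // e i = true} := by
  classical
  set a : Module.End F (I → KK F) := LI tt with ha
  have hac : PI e * a = a * PI e := LI_comm _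
  have huc : PI e * u = u * PI e := hu.1
  -- the map from even constants
  let ι : ({i // e i = false} → F) →ₗ[F] (I → KK F) :=
    { toFun := fun c i => if hi : e i = false then single 0 (c ⟨i, hi⟩) else 0
      map_add' := by
        intro c d
        funext i
        by_cases hi : e i = false
        · simp only [dif_pos hi, Pi.add_apply]
          exact (HahnSeries.single.addMonoidHom (0 : ℤ)).map_add _ _
        · simp only [dif_neg hi, Pi.add_apply, add_zero]
      map_smul' := by
        intro r c
        funext i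
        by_cases hi : e i = false
        · simp only [dif_pos hi, Pi.smul_apply, RingHom.id_apply]
          ext j
          simp [HahnSeries.coeff_single]
        · simp only [dif_neg hi, Pi.smul_apply, smul_zero] }
  let ρ : (I → KK F) →ₗ[F] ({i // e i = true} → F) :=
    { toFun := fun v i => (v i.1).coeff (-1)
      map_add' := by
        intro v w
        rfl
      map_smul' := by
        intro r v
        rfl }
  let M : ({i // e i = false} → F) →ₗ[F] ({i // e i = true} → F) :=
    ρ.comp (u.comp ((1 - a * u : Module.End F (I → KK F)).comp ι))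
  have hPι : ∀ c, PI e (ι c) = ι c := by
    intro c
    funext i
    change (if e i then pm F else pp F) (ι c i) = ι c i
    by_cases hi : e i = false
    · have : ι c i = single 0 (c ⟨i, hi⟩) := dif_pos hi
      rw [this, hi]
      simp only [Bool.false_eq_true, if_false]
      ext j
      rw [pp_coeff]
      split_ifs with hj
      · rw [HahnSeries.coeff_single_of_ne (by omega)]
      · rfl
    · have : ι c i = 0 := dif_neg hi
      rw [this, map_zero]
  have hM : Function.Injective M := by
    rw [injective_iff_map_eq_zero]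
    intro c hc
    set w := ι c - a (u (ι c)) with hw
    have hcw : ρ (u w) = 0 := hc
    have hauw : a (u w) = 0 := by
      rw [hw, map_sub, map_sub]
      have := LinearMap.congr_fun h (u (ι c))
      change a (u (a (u (ι c)))) = a (u (ι c)) at this
      rw [this, sub_self]
    have hPw : PI e w = w := by
      have e1 : PI e (a (u (ι c))) = a (u (ι c)) := by
        have q1 := LinearMap.congr_fun hac (u (ι c))
        change PI e (a (u (ι c))) = a (PI e (u (ι c))) at q1
        have q2 := LinearMap.congr_fun huc (ι c)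
        change PI e (u (ι c)) = u (PI e (ι c)) at q2
        rw [q1, q2, hPι]
      rw [hw, map_sub, hPι, e1]
    have hPuw : PI e (u w) = u w := by
      have q2 := LinearMap.congr_fun huc w
      change PI e (u w) = u (PI e w) at q2
      rw [q2, hPw]
    have huw : u w = 0 := by
      funext i
      have q3 : lam (tt : KK F) (u w i) = 0 := congrFun hauw i
      have q4 : (if e i then pm F else pp F) (u w i) = u w i := congrFun hPuw i
      by_cases hi : e i = true
      · rw [if_pos hi] at q4
        apply lam_tt_inj_C _ q3 (congrFun hcw ⟨i, hi⟩)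
        rw [← q4]
        exact LinearMap.congr_fun pp_pm _
      · rw [if_neg hi] at q4
        exact lam_tt_inj_O q4 q3
    have hw0 : w = 0 := by
      have q5 := LinearMap.congr_fun h1 w
      change u' (u w) = w at q5
      rw [← q5, huw, map_zero]
    funext i
    have q6 : ι c i.1 = a (u (ι c)) i.1 := by
      have := congrFun hw0 i.1
      rw [hw] at this
      exact sub_eq_zero.mp this
    have q7 : ι c i.1 = single 0 (c i) := dif_pos i.2
    have q8 : (a (u (ι c)) i.1).coeff 0 = 0 := lam_tt_coeff_zero _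
    rw [← q6, q7, HahnSeries.coeff_single_same] at q8
    exact q8
  have := LinearMap.finrank_le_finrank_of_injective hM
  rwa [Module.finrank_pi, Module.finrank_pi] at this

end Stage

end Pool.Agent.Q98.RegDF
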